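import Mathlib

open Matrix

namespace Pool.Agent.Results.MP_4a3f67_an.Six

/-- `ℝⁿ` with the Euclidean norm -/
abbrev V (n : ℕ) : Type := EuclideanSpace ℝ (Fin n)

/-- the quadratic form `xᵀ A x` -/
def q {n : ℕ} (A : Matrix (Fin n) (Fin n) ℝ) (x : V n) : ℝ := ∑ i, ∑ j, x i * A i j * x j

/-- the feasible set of (QQ2) -/
def F {n : ℕ} (A₁ A₂ : Matrix (Fin n) (Fin n) ℝ) : Set (V n) := {x | q A₁ x = 1 ∧ q A₂ x ≤ 1}

/-- the set of strict local non-global minimizers of (QQ2) -/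
def SLNG {n : ℕ} (A₀ A₁ A₂ : Matrix (Fin n) (Fin n) ℝ) : Set (V n) :=
  {p | p ∈ F A₁ A₂ ∧
    (∃ ε > 0, ∀ x ∈ F A₁ A₂, 0 < ‖x - p‖ → ‖x - p‖ < ε → q A₀ p < q A₀ x) ∧
    ∃ x ∈ F A₁ A₂, q A₀ x < q A₀ p}

lemma key (h μ e1 e2 f1 f2 w t s β : ℝ) (hh : 1 ≤ h) (hμ : 1 ≤ μ) (he1 : |e1| ≤ 400)
    (he2 : |e2| ≤ 400) (hf1 : |f1| ≤ 400) (hf2 : |f2| ≤ 400) (hw : 1 / 2 ≤ |w|)
    (ht : |t| ≤ 1 / 1000000) (hs : |s| ≤ 1 / 1000000) (hβ : 0 ≤ β)
    (hb : β = 2 * w * s + e1 * t ^ 2 + e2 * t * s) (hne : t ≠ 0 ∨ s ≠ 0) :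
    0 < h * t ^ 2 + f1 * t * s + f2 * s ^ 2 + μ * β := by
  have s0 := abs_nonneg s
  have t0 := abs_nonneg t
  have t2 := sq_nonneg t
  have h1 : |2 * w * s| ≤ β + 400 * t ^ 2 + 400 * (|t| * |s|) := by
    have : 2 * w * s = β - e1 * t ^ 2 - e2 * t * s := by rw [hb]; ring
    rw [this]
    have a1 : |e1 * t ^ 2| ≤ 400 * t ^ 2 := by
      rw [abs_mul, abs_of_nonneg t2]; exact mul_le_mul_of_nonneg_right he1 t2
    have a2 : |e2 * t * s| ≤ 400 * (|t| * |s|) := by
      rw [mul_assoc, abs_mul, abs_mul]; exact mul_le_mul_of_nonneg_right he2 (by positivity)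
    have := abs_le.1 a1
    have := abs_le.1 a2
    rw [abs_le]; constructor <;> nlinarith [mul_nonneg t0 s0]
  have h2 : |s| ≤ |2 * w * s| := by
    rw [abs_mul, abs_mul, abs_two]; nlinarith
  have h3 : |t| * |s| ≤ 1 / 1000000 * |s| := mul_le_mul_of_nonneg_right ht s0
  have h4 : |s| ≤ 2 * β + 800 * t ^ 2 := by linarith
  have a3 : |f1 * t * s| ≤ 400 * (|t| * |s|) := by
    rw [mul_assoc, abs_mul, abs_mul]; exact mul_le_mul_of_nonneg_right hf1 (by positivity)
  have a4 : |f2 * s ^ 2| ≤ 400 * (|s| * |s|) := by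
    rw [abs_mul, pow_two, abs_mul]; exact mul_le_mul_of_nonneg_right hf2 (by positivity)
  have h5 : |s| * |s| ≤ 1 / 1000000 * |s| := mul_le_mul_of_nonneg_right hs s0
  have b3 := (abs_le.1 a3).1
  have b4 := (abs_le.1 a4).1
  have c1 : t ^ 2 ≤ h * t ^ 2 := le_mul_of_one_le_left t2 hh
  have c2 : β ≤ μ * β := le_mul_of_one_le_left hβ hμ
  have : 0 < t ^ 2 + β := by
    rcases hne with h0 | h0
    · have := sq_pos_of_ne_zero h0; linarith
    · have := abs_pos.2 h0; linarith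
  linarith

def A0 : Matrix (Fin 3) (Fin 3) ℝ := !![0, 5, 1; 5, -16, 17; 1, 17, 8]
def A1 : Matrix (Fin 3) (Fin 3) ℝ := !![1, 0, -3; 0, 1, -1; -3, -1, 1]
def A2 : Matrix (Fin 3) (Fin 3) ℝ := !![1, -5, -4; -5, 1, -2; -4, -2, 1]

lemma q0 (x : V 3) : q A0 x = 10 * x 0 * x 1 + 2 * x 0 * x 2 - 16 * x 1 ^ 2 + 34 * x 1 * x 2
    + 8 * x 2 ^ 2 := by
  simp [q, A0, Fin.sum_univ_three]; ring
lemma q1 (x : V 3) : q A1 x = x 0 ^ 2 + x 1 ^ 2 + x 2 ^ 2 - 6 * x 0 * x 2 - 2 * x 1 * x 2 := by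
  simp [q, A1, Fin.sum_univ_three]; ring
lemma q2 (x : V 3) : q A2 x = x 0 ^ 2 + x 1 ^ 2 + x 2 ^ 2 - 10 * x 0 * x 1 - 8 * x 0 * x 2
    - 4 * x 1 * x 2 := by
  simp [q, A2, Fin.sum_univ_three]; ring

noncomputable def pt (i : Fin 3) (c : ℝ) : V 3 := EuclideanSpace.single i c

lemma coord (x p : V 3) (i : Fin 3) : |x i - p i| ≤ ‖x - p‖ := by
  have := PiLp.norm_apply_le (x - p) i
  simpa using this

lemma uniq {w c : ℝ} (hc : c = 1 ∨ c = -1) (h : |w - c| < 1) (hw : w ^ 2 = 1) : w = c := by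
  rw [abs_lt] at h
  rcases hc with rfl | rfl <;> nlinarith

lemma half {w c : ℝ} (hc : c = 1 ∨ c = -1) (h : |w - c| ≤ 1 / 2) : 1 / 2 ≤ |w| := by
  rw [abs_le] at h
  rcases hc with rfl | rfl
  · exact le_abs.2 (Or.inl (by linarith))
  · exact le_abs.2 (Or.inr (by linarith))

lemma mem (i : Fin 3) (c : ℝ) (hc : c = 1 ∨ c = -1) : pt i c ∈ SLNG A0 A1 A2 := by
  have hc2 : c ^ 2 = 1 := by rcases hc with rfl | rfl <;> norm_num
  refine ⟨?_, ⟨1 / 10000000, by norm_num, ?_⟩, !₂[1 / 2, 2, 1 / 2], ?_, ?_⟩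
  · simp only [F, Set.mem_setOf_eq, q1, q2]
    fin_cases i <;> simp [pt, hc2]
  · intro x hx h0 h1
    simp only [F, Set.mem_setOf_eq, q1, q2] at hx
    obtain ⟨e1, e2⟩ := hx
    have c0 := (coord x _ 0).trans_lt h1
    have c1 := (coord x _ 1).trans_lt h1
    have c2 := (coord x _ 2).trans_lt h1
    have hne : x ≠ pt i c := by rintro rfl; simp at h0
    rw [q0, q0]
    fin_cases i
    · simp [pt] at c0 c1 c2 ⊢
      have a1 := abs_lt.1 c1
      have a2 := abs_lt.1 c2
      have := key 24 1 (-10) 2 (-48) 8 (x 0) (x 1) (5 * x 1 + x 2)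
        (10 * x 0 * x 1 + 2 * x 0 * x 2 + 2 * x 1 * x 2) (by norm_num) (by norm_num)
        (by norm_num [abs_le]) (by norm_num [abs_le]) (by norm_num [abs_le]) (by norm_num [abs_le])
        (half hc (by linarith)) (by linarith) (abs_le.2 ⟨by linarith, by linarith⟩) (by linarith)
        (by ring) (by
          by_contra hh
          push Not at hh
          have z1 : x 1 = 0 := hh.1
          have z2 : x 2 = 0 := by linarith [hh.2]
          apply hne
          ext j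
          fin_cases j
          · simpa [pt] using uniq hc (by linarith) (by rw [z1, z2] at e1; linarith)
          · simpa [pt] using z1
          · simpa [pt] using z2)
      linarith
    · simp [pt] at c0 c1 c2 ⊢
      have a1 := abs_lt.1 c0
      have a2 := abs_lt.1 c2
      have := key 1096 1 (-10) 2 (-336) 24 (x 1) (x 0) (5 * x 0 + x 2)
        (10 * x 0 * x 1 + 2 * x 0 * x 2 + 2 * x 1 * x 2) (by norm_num) (by norm_num)
        (by norm_num [abs_le]) (by norm_num [abs_le]) (by norm_num [abs_le]) (by norm_num [abs_le])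
        (half hc (by linarith)) (by linarith) (abs_le.2 ⟨by linarith, by linarith⟩) (by linarith)
        (by ring) (by
          by_contra hh
          push Not at hh
          have z1 : x 0 = 0 := hh.1
          have z2 : x 2 = 0 := by linarith [hh.2]
          apply hne
          ext j
          fin_cases j
          · simpa [pt] using z1
          · simpa [pt] using uniq hc (by linarith) (by rw [z1, z2] at e1; linarith)
          · simpa [pt] using z2)
      linarith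
    · simp [pt] at c0 c1 c2 ⊢
      have a1 := abs_lt.1 c0
      have a2 := abs_lt.1 c1
      have := key 208 25 (-10) 10 (-192) (-24) (x 2) (x 0) (x 0 + x 1)
        (10 * x 0 * x 1 + 2 * x 0 * x 2 + 2 * x 1 * x 2) (by norm_num) (by norm_num)
        (by norm_num [abs_le]) (by norm_num [abs_le]) (by norm_num [abs_le]) (by norm_num [abs_le])
        (half hc (by linarith)) (by linarith) (abs_le.2 ⟨by linarith, by linarith⟩) (by linarith)
        (by ring) (by
          by_contra hh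
          push Not at hh
          have z1 : x 0 = 0 := hh.1
          have z2 : x 1 = 0 := by linarith [hh.2]
          apply hne
          ext j
          fin_cases j
          · simpa [pt] using z1
          · simpa [pt] using z2
          · simpa [pt] using uniq hc (by linarith) (by rw [z1, z2] at e1; linarith))
      linarith
  · simp only [F, Set.mem_setOf_eq, q1, q2]
    simp; norm_num
  · rw [q0, q0]
    fin_cases i <;> simp [pt, hc2] <;> norm_num

theorem result : ∃ n : ℕ, 3 ≤ n ∧ ∃ A₀ A₁ A₂ : Matrix (Fin n) (Fin n) ℝ,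
    A₀.IsSymm ∧ A₁.IsSymm ∧ A₂.IsSymm ∧ 6 ≤ (SLNG A₀ A₁ A₂).encard := by
  refine ⟨3, le_rfl, A0, A1, A2, ?_, ?_, ?_, ?_⟩
  · ext i j; fin_cases i <;> fin_cases j <;> simp [A0]
  · ext i j; fin_cases i <;> fin_cases j <;> simp [A1]
  · ext i j; fin_cases i <;> fin_cases j <;> simp [A2]
  · let f : Fin 3 × Bool → V 3 := fun p => pt p.1 (if p.2 then 1 else -1)
    have hf : Function.Injective f := by
      rintro ⟨i, a⟩ ⟨j, b⟩ h
      have h1 := congrArg (fun v : V 3 => v i) h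
      fin_cases i <;> fin_cases j <;> cases a <;> cases b <;> simp [f, pt] at h1 ⊢ <;>
        norm_num at h1
    have hs : Set.range f ⊆ SLNG A0 A1 A2 := by
      rintro _ ⟨⟨i, a⟩, rfl⟩
      exact mem _ _ (by cases a <;> simp)
    refine le_trans ?_ (Set.encard_le_encard hs)
    rw [← Set.image_univ, hf.injOn.encard_image]
    simp [Set.encard_univ]

end Pool.Agent.Results.MP_4a3f67_an.Six
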